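import Pool.Agent.W4.QD.Stms2

/-!
# Minimal models in the pencil of curves with the same points of order three
-/

set_option autoImplicit false

namespace Pool.Agent.W21.QD

open Pool.Agent.W4.QD

theorem PA_hom (a b l s t : ℚ) : PA a b (l * s) (l * t) = l ^ 4 * PA a b s t := by
  unfold PA; ring

theorem PB_hom (a b l s t : ℚ) : PB a b (l * s) (l * t) = l ^ 6 * PB a b s t := by
  unfold PB; ring

theorem PA_cast (a b s t : ℤ) : ((PA a b s t : ℤ) : ℚ) = PA (a : ℚ) b s t := by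
  unfold PA; push_cast; ring

theorem PB_cast (a b s t : ℤ) : ((PB a b s t : ℤ) : ℚ) = PB (a : ℚ) b s t := by
  unfold PB; push_cast; ring

theorem bez_t {R : Type} [CommRing R] (a b s t : R) : 243 * (4 * a ^ 3 - 27 * b ^ 2) ^ 2 * t ^ 7 =
    ((-6 * b) * s ^ 3 + (4 * a ^ 2) * s ^ 2 * t + (90 * a * b) * s * t ^ 2 +
      (-72 * a ^ 3 + 729 * b ^ 2) * t ^ 3) * PA a b s t +
    ((6 * a * b) * s ^ 3 + (-4 * a ^ 3 + 108 * b ^ 2) * s ^ 2 * t + (54 * a ^ 2 * b) * s * t ^ 2 +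
      (-72 * a ^ 4 + 567 * a * b ^ 2) * t ^ 3) * PT a b s t := by
  unfold PA PT; ring

theorem bez_s {R : Type} [CommRing R] (a b s t : R) : (4 * a ^ 3 - 27 * b ^ 2) ^ 2 * s ^ 7 =
    ((8 * a ^ 5 - 51 * a ^ 2 * b ^ 2) * s ^ 3 + (-66 * a ^ 4 * b + 432 * a * b ^ 3) * s ^ 2 * t +
      (12 * a ^ 6 - 702 * a ^ 3 * b ^ 2 + 3888 * b ^ 4) * s * t ^ 2 +
      (-162 * a ^ 5 * b + 972 * a ^ 2 * b ^ 3) * t ^ 3) * PA a b s t +
    ((8 * a ^ 6 - 165 * a ^ 3 * b ^ 2 + 729 * b ^ 4) * s ^ 3 +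
      (-78 * a ^ 5 * b + 486 * a ^ 2 * b ^ 3) * s ^ 2 * t +
      (-12 * a ^ 7 - 162 * a ^ 4 * b ^ 2 + 1458 * a * b ^ 4) * s * t ^ 2 +
      (162 * a ^ 6 * b - 2430 * a ^ 3 * b ^ 3 + 8748 * b ^ 5) * t ^ 3) * PT a b s t := by
  unfold PA PT; ring

/-- rational points are multiples of primitive integral points -/
theorem prim (x y : ℚ) (h : ¬ (x = 0 ∧ y = 0)) :
    ∃ (l : ℚ) (s t : ℤ), l ≠ 0 ∧ IsCoprime s t ∧ x = l * s ∧ y = l * t := by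
  set X : ℤ := x.num * y.den with hX
  set Y : ℤ := y.num * x.den with hY
  have hxd : (x.den : ℚ) ≠ 0 := by exact_mod_cast x.den_nz
  have hyd : (y.den : ℚ) ≠ 0 := by exact_mod_cast y.den_nz
  have ex : x = X / (x.den * y.den) := by
    rw [hX]
    push_cast
    rw [mul_div_mul_right _ _ hyd]
    exact (Rat.num_div_den x).symm
  have ey : y = Y / (x.den * y.den) := by
    rw [hY]
    push_cast
    rw [mul_comm (x.den : ℚ), mul_div_mul_right _ _ hxd]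
    exact (Rat.num_div_den y).symm
  have hg : 0 < Int.gcd X Y := by
    rw [Nat.pos_iff_ne_zero]
    intro h0
    rw [Int.gcd_eq_zero_iff] at h0
    apply h
    constructor
    · rw [ex, h0.1]; simp
    · rw [ey, h0.2]; simp
  obtain ⟨s, t, hc, h1, h2⟩ := Int.exists_gcd_one hg
  refine ⟨(Int.gcd X Y : ℚ) / (x.den * y.den), s, t, ?_, Int.isCoprime_iff_gcd_eq_one.2 hc, ?_, ?_⟩
  · have : ((Int.gcd X Y : ℕ) : ℚ) ≠ 0 := by exact_mod_cast hg.ne'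
    positivity
  · have h3 : (X : ℚ) = s * (Int.gcd X Y : ℕ) := by exact_mod_cast h1
    calc x = X / (x.den * y.den) := ex
      _ = (s * (Int.gcd X Y : ℕ)) / (x.den * y.den) := by rw [← h3]
      _ = _ := by ring
  · have h3 : (Y : ℚ) = t * (Int.gcd X Y : ℕ) := by exact_mod_cast h2
    calc y = Y / (x.den * y.den) := ey
      _ = (t * (Int.gcd X Y : ℕ)) / (x.den * y.den) := by rw [← h3]
      _ = _ := by ring

/-- the representation of `(a, b)` by a primitive point -/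
def Rep (a0 b0 : ℤ) (a b s t : ℤ) (w : ℚ) : Prop :=
  w ≠ 0 ∧ IsCoprime s t ∧ (a : ℚ) = w ^ 4 * (PA a0 b0 s t : ℤ) ∧ (b : ℚ) = w ^ 6 * (PB a0 b0 s t : ℤ)

theorem rep_ex (a0 b0 a b : ℤ) (h : InPencil a0 b0 a b) (hd : 4 * a ^ 3 - 27 * b ^ 2 ≠ 0) :
    ∃ (p : ℤ × ℤ) (w : ℚ), Rep a0 b0 a b p.1 p.2 w := by
  obtain ⟨u, x, y, hu, ha, hb⟩ := h
  have hxy : ¬ (x = 0 ∧ y = 0) := by
    rintro ⟨rfl, rfl⟩
    apply hd
    have h1 : (a : ℚ) = 0 := by rw [ha]; unfold PA; ring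
    have h2 : (b : ℚ) = 0 := by rw [hb]; unfold PB; ring
    have h3 : a = 0 := by exact_mod_cast h1
    have h4 : b = 0 := by exact_mod_cast h2
    rw [h3, h4]; norm_num
  obtain ⟨l, s, t, hl, hc, rfl, rfl⟩ := prim x y hxy
  refine ⟨(s, t), u * l, mul_ne_zero hu hl, hc, ?_, ?_⟩
  · rw [ha, PA_hom, PA_cast]; ring
  · rw [hb, PB_hom, PB_cast]; ring

open Classical in
/-- the primitive point -/
noncomputable def phi (a0 b0 : ℤ) (q : ℤ × ℤ) : ℤ × ℤ :=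
  if h : ∃ (p : ℤ × ℤ) (w : ℚ), Rep a0 b0 q.1 q.2 p.1 p.2 w then h.choose else (1, 0)

theorem phi_spec (a0 b0 a b : ℤ) (h : InPencil a0 b0 a b) (hd : 4 * a ^ 3 - 27 * b ^ 2 ≠ 0) :
    ∃ w : ℚ, Rep a0 b0 a b (phi a0 b0 (a, b)).1 (phi a0 b0 (a, b)).2 w := by
  have h1 : ∃ (p : ℤ × ℤ) (w : ℚ), Rep a0 b0 (a, b).1 (a, b).2 p.1 p.2 w := rep_ex a0 b0 a b h hd
  rw [phi, dif_pos h1]
  exact h1.choose_spec

section rep

variable {a0 b0 a b s t : ℤ} {w : ℚ} (hR : Rep a0 b0 a b s t w)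

include hR

theorem rep_a : (w.den : ℤ) ^ 4 * a = w.num ^ 4 * PA a0 b0 s t := by
  have h := hR.2.2.1
  have hd : (w.den : ℚ) ≠ 0 := by exact_mod_cast w.den_nz
  have hw : w * w.den = w.num := Rat.mul_den_eq_num w
  have : ((w.den : ℤ) ^ 4 * a : ℚ) = w.num ^ 4 * (PA a0 b0 s t : ℤ) := by
    rw [h, ← hw]
    push_cast
    ring
  exact_mod_cast this

theorem rep_b : (w.den : ℤ) ^ 6 * b = w.num ^ 6 * PB a0 b0 s t := by
  have h := hR.2.2.2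
  have hw : w * w.den = w.num := Rat.mul_den_eq_num w
  have : ((w.den : ℤ) ^ 6 * b : ℚ) = w.num ^ 6 * (PB a0 b0 s t : ℤ) := by
    rw [h, ← hw]
    push_cast
    ring
  exact_mod_cast this

theorem rep_disc : (w.den : ℤ) ^ 12 * (4 * a ^ 3 - 27 * b ^ 2) =
    w.num ^ 12 * ((4 * a0 ^ 3 - 27 * b0 ^ 2) * PT a0 b0 s t ^ 3) := by
  rw [← pencil_disc]
  have h1 := rep_a hR
  have h2 := rep_b hR
  calc (w.den : ℤ) ^ 12 * (4 * a ^ 3 - 27 * b ^ 2)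
      = 4 * ((w.den : ℤ) ^ 4 * a) ^ 3 - 27 * ((w.den : ℤ) ^ 6 * b) ^ 2 := by ring
    _ = _ := by rw [h1, h2]; ring

theorem cop_w : IsCoprime (w.den : ℤ) w.num := by
  rw [Int.isCoprime_iff_gcd_eq_one, Int.gcd_comm]
  exact w.reduced

theorem den_dvd : (w.den : ℤ) ^ 4 ∣ 243 * (4 * a0 ^ 3 - 27 * b0 ^ 2) ^ 3 := by
  have hc := cop_w hR
  have h1 : (w.den : ℤ) ^ 4 ∣ PA a0 b0 s t :=
    (hc.pow (m := 4) (n := 4)).dvd_of_dvd_mul_left (Dvd.intro _ (rep_a hR))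
  have h2 : (w.den : ℤ) ^ 6 ∣ PB a0 b0 s t :=
    (hc.pow (m := 6) (n := 6)).dvd_of_dvd_mul_left (Dvd.intro _ (rep_b hR))
  set D : ℤ := 4 * a0 ^ 3 - 27 * b0 ^ 2 with hD
  have h3 : (w.den : ℤ) ^ 12 ∣ D * PT a0 b0 s t ^ 3 := by
    rw [hD, ← pencil_disc]
    apply dvd_sub
    · apply Dvd.dvd.mul_left
      have := pow_dvd_pow_of_dvd h1 3
      rwa [← pow_mul] at this
    · apply Dvd.dvd.mul_left
      have := pow_dvd_pow_of_dvd h2 2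
      rwa [← pow_mul] at this
  have h4 : ((w.den : ℤ) ^ 4) ^ 3 ∣ (D * PT a0 b0 s t) ^ 3 := by
    rw [← pow_mul]
    have e : (D * PT a0 b0 s t) ^ 3 = D ^ 2 * (D * PT a0 b0 s t ^ 3) := by ring
    rw [e]
    exact Dvd.dvd.mul_left h3 _
  have h5 : (w.den : ℤ) ^ 4 ∣ D * PT a0 b0 s t := (Int.pow_dvd_pow_iff (by norm_num)).1 h4
  have h6 : (w.den : ℤ) ^ 4 ∣ 243 * D ^ 3 * t ^ 7 := by
    have e : 243 * D ^ 3 * t ^ 7 = D * (243 * D ^ 2 * t ^ 7) := by ring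
    rw [e, hD, bez_t, mul_add]
    apply dvd_add
    · rw [mul_left_comm]
      exact Dvd.dvd.mul_left (Dvd.dvd.mul_left h1 _) _
    · rw [mul_left_comm]
      exact Dvd.dvd.mul_left h5 _
  have h7 : (w.den : ℤ) ^ 4 ∣ D ^ 3 * s ^ 7 := by
    have e : D ^ 3 * s ^ 7 = D * (D ^ 2 * s ^ 7) := by ring
    rw [e, hD, bez_s, mul_add]
    apply dvd_add
    · rw [mul_left_comm]
      exact Dvd.dvd.mul_left (Dvd.dvd.mul_left h1 _) _
    · rw [mul_left_comm]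
      exact Dvd.dvd.mul_left h5 _
  obtain ⟨x, y, hxy⟩ := (hR.2.1.pow (m := 7) (n := 7))
  have e : 243 * D ^ 3 = x * 243 * (D ^ 3 * s ^ 7) + y * (243 * D ^ 3 * t ^ 7) := by
    linear_combination (-243 * D ^ 3) * hxy
  rw [e]
  exact dvd_add (Dvd.dvd.mul_left h7 _) (Dvd.dvd.mul_left h6 _)

end rep

/-- size of a cubic form -/
theorem cub (c0 c1 c2 c3 s t M : ℝ) (hs : |s| ≤ M) (ht : |t| ≤ M) :
    |c0 * s ^ 3 + c1 * s ^ 2 * t + c2 * s * t ^ 2 + c3 * t ^ 3| ≤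
      (|c0| + |c1| + |c2| + |c3|) * M ^ 3 := by
  have hM : 0 ≤ M := (abs_nonneg s).trans hs
  have h0 : |c0 * s ^ 3| ≤ |c0| * M ^ 3 := by
    rw [abs_mul, abs_pow]
    gcongr
  have h1 : |c1 * s ^ 2 * t| ≤ |c1| * M ^ 3 := by
    rw [abs_mul, abs_mul, abs_pow, mul_assoc]
    have : |s| ^ 2 * |t| ≤ M ^ 2 * M := by gcongr
    calc _ ≤ |c1| * (M ^ 2 * M) := by gcongr
      _ = _ := by ring
  have h2 : |c2 * s * t ^ 2| ≤ |c2| * M ^ 3 := by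
    rw [abs_mul, abs_mul, abs_pow, mul_assoc]
    have : |s| * |t| ^ 2 ≤ M * M ^ 2 := by gcongr
    calc _ ≤ |c2| * (M * M ^ 2) := by gcongr
      _ = _ := by ring
  have h3 : |c3 * t ^ 3| ≤ |c3| * M ^ 3 := by
    rw [abs_mul, abs_pow]
    gcongr
  calc _ ≤ |c0 * s ^ 3 + c1 * s ^ 2 * t + c2 * s * t ^ 2| + |c3 * t ^ 3| := abs_add_le _ _
    _ ≤ |c0 * s ^ 3 + c1 * s ^ 2 * t| + |c2 * s * t ^ 2| + |c3 * t ^ 3| := by
      gcongr; exact abs_add_le _ _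
    _ ≤ |c0 * s ^ 3| + |c1 * s ^ 2 * t| + |c2 * s * t ^ 2| + |c3 * t ^ 3| := by
      gcongr; exact abs_add_le _ _
    _ ≤ |c0| * M ^ 3 + |c1| * M ^ 3 + |c2| * M ^ 3 + |c3| * M ^ 3 := by gcongr
    _ = _ := by ring

/-- there is a constant with `max(|s|,|t|)^7 ≤ c max^3 (|PA| + |PT|)` -/
theorem bez_real (a0 b0 : ℤ) (hD : 4 * a0 ^ 3 - 27 * b0 ^ 2 ≠ 0) : ∃ c : ℝ, 0 ≤ c ∧
    ∀ s t : ℤ, max |(s : ℝ)| |(t : ℝ)| ^ 7 ≤ c * max |(s : ℝ)| |(t : ℝ)| ^ 3 *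
      (|((PA a0 b0 s t : ℤ) : ℝ)| + |((PT a0 b0 s t : ℤ) : ℝ)|) := by
  have hD1 : (1 : ℝ) ≤ ((4 * a0 ^ 3 - 27 * b0 ^ 2 : ℤ) : ℝ) ^ 2 := by
    have : (1 : ℤ) ≤ (4 * a0 ^ 3 - 27 * b0 ^ 2) ^ 2 := by
      have := sq_pos_of_ne_zero hD
      omega
    exact_mod_cast this
  have bound : ∀ c0 c1 c2 c3 d0 d1 d2 d3 : ℤ, ∃ c : ℝ, 0 ≤ c ∧ ∀ s t : ℤ,
      |(((c0 * s ^ 3 + c1 * s ^ 2 * t + c2 * s * t ^ 2 + c3 * t ^ 3) * PA a0 b0 s t +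
        (d0 * s ^ 3 + d1 * s ^ 2 * t + d2 * s * t ^ 2 + d3 * t ^ 3) * PT a0 b0 s t : ℤ) : ℝ)| ≤
      c * max |(s : ℝ)| |(t : ℝ)| ^ 3 *
      (|((PA a0 b0 s t : ℤ) : ℝ)| + |((PT a0 b0 s t : ℤ) : ℝ)|) := by
    intro c0 c1 c2 c3 d0 d1 d2 d3
    refine ⟨(|(c0 : ℝ)| + |(c1 : ℝ)| + |(c2 : ℝ)| + |(c3 : ℝ)|) +
      (|(d0 : ℝ)| + |(d1 : ℝ)| + |(d2 : ℝ)| + |(d3 : ℝ)|), by positivity, fun s t => ?_⟩
    have h1 := cub c0 c1 c2 c3 s t _ (le_max_left |(s : ℝ)| |(t : ℝ)|) (le_max_right _ _)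
    have h2 := cub d0 d1 d2 d3 s t _ (le_max_left |(s : ℝ)| |(t : ℝ)|) (le_max_right _ _)
    set M := max |(s : ℝ)| |(t : ℝ)| with hM
    have hM0 : 0 ≤ M := (abs_nonneg _).trans (le_max_left _ _)
    set x := ((PA a0 b0 s t : ℤ) : ℝ) with hx
    set y := ((PT a0 b0 s t : ℤ) : ℝ) with hy
    set e1 := |(c0 : ℝ)| + |(c1 : ℝ)| + |(c2 : ℝ)| + |(c3 : ℝ)| with he1
    set e2 := |(d0 : ℝ)| + |(d1 : ℝ)| + |(d2 : ℝ)| + |(d3 : ℝ)| with he2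
    have he10 : 0 ≤ e1 := by positivity
    have he20 : 0 ≤ e2 := by positivity
    push_cast
    rw [← hx, ← hy]
    calc _ ≤ |((c0 : ℝ) * s ^ 3 + c1 * s ^ 2 * t + c2 * s * t ^ 2 + c3 * t ^ 3) * x| +
          |((d0 : ℝ) * s ^ 3 + d1 * s ^ 2 * t + d2 * s * t ^ 2 + d3 * t ^ 3) * y| := abs_add_le _ _
      _ ≤ e1 * M ^ 3 * |x| + e2 * M ^ 3 * |y| := by
        rw [abs_mul, abs_mul]
        gcongr
      _ ≤ _ := by
        have h3 : 0 ≤ e1 * M ^ 3 * |y| := by positivity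
        have h4 : 0 ≤ e2 * M ^ 3 * |x| := by positivity
        nlinarith
  obtain ⟨c, hc, h1⟩ := bound (-6 * b0) (4 * a0 ^ 2) (90 * a0 * b0) (-72 * a0 ^ 3 + 729 * b0 ^ 2)
    (6 * a0 * b0) (-4 * a0 ^ 3 + 108 * b0 ^ 2) (54 * a0 ^ 2 * b0) (-72 * a0 ^ 4 + 567 * a0 * b0 ^ 2)
  obtain ⟨c', hc', h2⟩ := bound (8 * a0 ^ 5 - 51 * a0 ^ 2 * b0 ^ 2)
    (-66 * a0 ^ 4 * b0 + 432 * a0 * b0 ^ 3) (12 * a0 ^ 6 - 702 * a0 ^ 3 * b0 ^ 2 + 3888 * b0 ^ 4)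
    (-162 * a0 ^ 5 * b0 + 972 * a0 ^ 2 * b0 ^ 3) (8 * a0 ^ 6 - 165 * a0 ^ 3 * b0 ^ 2 + 729 * b0 ^ 4)
    (-78 * a0 ^ 5 * b0 + 486 * a0 ^ 2 * b0 ^ 3)
    (-12 * a0 ^ 7 - 162 * a0 ^ 4 * b0 ^ 2 + 1458 * a0 * b0 ^ 4)
    (162 * a0 ^ 6 * b0 - 2430 * a0 ^ 3 * b0 ^ 3 + 8748 * b0 ^ 5)
  refine ⟨c + c', by positivity, fun s t => ?_⟩
  have h3 := h1 s t
  have h4 := h2 s t
  rw [← bez_t] at h3
  rw [← bez_s] at h4
  set M := max |(s : ℝ)| |(t : ℝ)| with hM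
  have hM0 : 0 ≤ M := (abs_nonneg _).trans (le_max_left _ _)
  set x := |((PA a0 b0 s t : ℤ) : ℝ)| with hx
  set y := |((PT a0 b0 s t : ℤ) : ℝ)| with hy
  have hx0 : 0 ≤ x := abs_nonneg _
  have hy0 : 0 ≤ y := abs_nonneg _
  have e3 : |(t : ℝ)| ^ 7 ≤ |((243 * (4 * a0 ^ 3 - 27 * b0 ^ 2) ^ 2 * t ^ 7 : ℤ) : ℝ)| := by
    push_cast at hD1 ⊢
    rw [abs_mul, abs_pow, abs_of_nonneg (show (0 : ℝ) ≤ 243 * (4 * (a0 : ℝ) ^ 3 - 27 * (b0 : ℝ) ^ 2) ^ 2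
      by positivity)]
    have : (1 : ℝ) ≤ 243 * (4 * (a0 : ℝ) ^ 3 - 27 * (b0 : ℝ) ^ 2) ^ 2 := by linarith
    exact le_mul_of_one_le_left (by positivity) this
  have e4 : |(s : ℝ)| ^ 7 ≤ |(((4 * a0 ^ 3 - 27 * b0 ^ 2) ^ 2 * s ^ 7 : ℤ) : ℝ)| := by
    push_cast at hD1 ⊢
    rw [abs_mul, abs_of_nonneg (show (0 : ℝ) ≤ (4 * (a0 : ℝ) ^ 3 - 27 * (b0 : ℝ) ^ 2) ^ 2
      by positivity), abs_pow]
    exact le_mul_of_one_le_left (by positivity) hD1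
  have h5 : 0 ≤ c * M ^ 3 * (x + y) := by positivity
  have h6 : 0 ≤ c' * M ^ 3 * (x + y) := by positivity
  rcases max_choice |(s : ℝ)| |(t : ℝ)| with h | h
  · rw [← hM] at h
    have : M ^ 7 = |(s : ℝ)| ^ 7 := by rw [h]
    rw [this]
    linarith
  · rw [← hM] at h
    have : M ^ 7 = |(t : ℝ)| ^ 7 := by rw [h]
    rw [this]
    linarith

/-- the minimality hypothesis -/
def MinM (a b : ℤ) : Prop := ∀ (u : ℚ) (a' b' : ℤ), u ≠ 0 →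
  (a' : ℚ) = u ^ 4 * a → (b' : ℚ) = u ^ 6 * b →
  |4 * a ^ 3 - 27 * b ^ 2| ≤ |4 * a' ^ 3 - 27 * b' ^ 2|

theorem height {a0 b0 a b s t : ℤ} {w : ℚ} (hD : 4 * a0 ^ 3 - 27 * b0 ^ 2 ≠ 0)
    (hR : Rep a0 b0 a b s t w) (c : ℝ) (hc : 0 ≤ c)
    (hb : max |(s : ℝ)| |(t : ℝ)| ^ 7 ≤ c * max |(s : ℝ)| |(t : ℝ)| ^ 3 *
      (|((PA a0 b0 s t : ℤ) : ℝ)| + |((PT a0 b0 s t : ℤ) : ℝ)|))
    (H : ℝ) (hH : 0 ≤ H) (ha : |(a : ℝ)| ≤ H ^ 4) (hbb : |(b : ℝ)| ≤ H ^ 6) :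
    max |(s : ℝ)| |(t : ℝ)| ^ 4 ≤
      5 * c * (243 * |((4 * a0 ^ 3 - 27 * b0 ^ 2 : ℤ) : ℝ)| ^ 3) * H ^ 4 := by
  have hw := hR.1
  set D : ℤ := 4 * a0 ^ 3 - 27 * b0 ^ 2 with hDdef
  set K : ℝ := 243 * |(D : ℝ)| ^ 3 with hK
  have hD1 : (1 : ℝ) ≤ |(D : ℝ)| := by
    have : (1 : ℤ) ≤ |D| := Int.one_le_abs hD
    exact_mod_cast this
  have hK1 : 0 < K := by positivity
  have hden : ((w.den : ℝ)) ^ 4 ≤ K := by
    have h1 := Int.le_of_dvd (abs_pos.2 (mul_ne_zero (by norm_num) (pow_ne_zero 3 hD)))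
      ((dvd_abs _ _).2 (den_dvd hR))
    have h2 : ((w.den : ℝ)) ^ 4 ≤ |((243 * D ^ 3 : ℤ) : ℝ)| := by exact_mod_cast h1
    refine h2.trans (le_of_eq ?_)
    push_cast
    rw [abs_mul, abs_pow, hK]
    norm_num
  have hnum : (1 : ℝ) ≤ |(w.num : ℝ)| := by
    have : (1 : ℤ) ≤ |w.num| := Int.one_le_abs (Rat.num_ne_zero.2 hw)
    exact_mod_cast this
  set A := |((PA a0 b0 s t : ℤ) : ℝ)| with hA
  set T := |((PT a0 b0 s t : ℤ) : ℝ)| with hT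
  have hA0 : 0 ≤ A := abs_nonneg _
  have hT0 : 0 ≤ T := abs_nonneg _
  have hAle : A ≤ K * H ^ 4 := by
    have h1 := rep_a hR
    have h2 : ((w.den : ℝ)) ^ 4 * a = (w.num : ℝ) ^ 4 * ((PA a0 b0 s t : ℤ) : ℝ) := by
      exact_mod_cast h1
    have h3 : ((w.den : ℝ)) ^ 4 * |(a : ℝ)| = |(w.num : ℝ)| ^ 4 * A := by
      rw [hA, ← abs_pow, ← abs_mul, ← h2, abs_mul,
        abs_of_nonneg (show (0 : ℝ) ≤ (w.den : ℝ) ^ 4 by positivity)]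
    have h4 : A ≤ |(w.num : ℝ)| ^ 4 * A :=
      le_mul_of_one_le_left hA0 (one_le_pow₀ hnum)
    calc A ≤ |(w.num : ℝ)| ^ 4 * A := h4
      _ = ((w.den : ℝ)) ^ 4 * |(a : ℝ)| := h3.symm
      _ ≤ K * H ^ 4 := by gcongr
  have hTle : T ≤ 4 * (K * H ^ 4) := by
    have h1 := rep_disc hR
    have h2 : ((w.den : ℝ)) ^ 12 * ((4 * a ^ 3 - 27 * b ^ 2 : ℤ) : ℝ) =
        (w.num : ℝ) ^ 12 * ((D : ℝ) * ((PT a0 b0 s t : ℤ) : ℝ) ^ 3) := by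
      exact_mod_cast h1
    have h3 : ((w.den : ℝ)) ^ 12 * |((4 * a ^ 3 - 27 * b ^ 2 : ℤ) : ℝ)| =
        |(w.num : ℝ)| ^ 12 * (|(D : ℝ)| * T ^ 3) := by
      rw [hT, ← abs_pow, ← abs_pow, ← abs_mul, ← abs_mul, ← h2, abs_mul,
        abs_of_nonneg (show (0 : ℝ) ≤ (w.den : ℝ) ^ 12 by positivity)]
    have h4 : T ^ 3 ≤ |(w.num : ℝ)| ^ 12 * (|(D : ℝ)| * T ^ 3) := by
      have h5 : T ^ 3 ≤ |(D : ℝ)| * T ^ 3 := le_mul_of_one_le_left (by positivity) hD1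
      exact h5.trans (le_mul_of_one_le_left (by positivity) (one_le_pow₀ hnum))
    have h6 : |((4 * a ^ 3 - 27 * b ^ 2 : ℤ) : ℝ)| ≤ 31 * H ^ 12 := by
      push_cast
      calc |4 * (a : ℝ) ^ 3 - 27 * (b : ℝ) ^ 2| ≤ |4 * (a : ℝ) ^ 3| + |27 * (b : ℝ) ^ 2| := abs_sub _ _
        _ = 4 * |(a : ℝ)| ^ 3 + 27 * |(b : ℝ)| ^ 2 := by
          rw [abs_mul, abs_mul, abs_pow, abs_pow]; norm_num
        _ ≤ 4 * (H ^ 4) ^ 3 + 27 * (H ^ 6) ^ 2 := by gcongr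
        _ = _ := by ring
    have h7 : T ^ 3 ≤ (4 * (K * H ^ 4)) ^ 3 := by
      calc T ^ 3 ≤ |(w.num : ℝ)| ^ 12 * (|(D : ℝ)| * T ^ 3) := h4
        _ = ((w.den : ℝ)) ^ 12 * |((4 * a ^ 3 - 27 * b ^ 2 : ℤ) : ℝ)| := h3.symm
        _ = (((w.den : ℝ)) ^ 4) ^ 3 * |((4 * a ^ 3 - 27 * b ^ 2 : ℤ) : ℝ)| := by ring
        _ ≤ K ^ 3 * (31 * H ^ 12) := by gcongr
        _ ≤ (4 * (K * H ^ 4)) ^ 3 := by
          have : 0 ≤ K ^ 3 * H ^ 12 := by positivity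
          nlinarith
    exact le_of_pow_le_pow_left₀ (by norm_num) (by positivity) h7
  set M := max |(s : ℝ)| |(t : ℝ)| with hM
  have hM0 : 0 < M := by
    rw [hM, lt_max_iff, abs_pos, abs_pos]
    by_contra hcon
    push Not at hcon
    have hs : s = 0 := by exact_mod_cast hcon.1
    have ht : t = 0 := by exact_mod_cast hcon.2
    have := hR.2.1
    rw [hs, ht, isCoprime_self] at this
    exact absurd this (by simp)
  have h8 : M ^ 4 ≤ c * (A + T) := by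
    have h9 : M ^ 3 * M ^ 4 ≤ M ^ 3 * (c * (A + T)) := by
      calc M ^ 3 * M ^ 4 = M ^ 7 := by ring
        _ ≤ c * M ^ 3 * (A + T) := hb
        _ = _ := by ring
    exact le_of_mul_le_mul_left h9 (by positivity)
  calc M ^ 4 ≤ c * (A + T) := h8
    _ ≤ c * (K * H ^ 4 + 4 * (K * H ^ 4)) := by gcongr
    _ = _ := by ring

theorem t_PEN : S_PEN := by
  intro a0 b0 hD
  obtain ⟨c, hc, hbez⟩ := bez_real a0 b0 hD
  set D : ℤ := 4 * a0 ^ 3 - 27 * b0 ^ 2 with hDdef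
  have hD1 : (1 : ℝ) ≤ |(D : ℝ)| := by
    have : (1 : ℤ) ≤ |D| := Int.one_le_abs hD
    exact_mod_cast this
  set K : ℝ := 243 * |(D : ℝ)| ^ 3 with hK
  have hK0 : 0 < K := by positivity
  refine ⟨6 * 243 * D.natAbs ^ 3, 1 + |(D : ℝ)| + 5 * c * K, phi a0 b0, ?_, ?_, ?_⟩
  · have : 0 < D.natAbs := Int.natAbs_pos.2 hD
    have : 0 < D.natAbs ^ 3 := by positivity
    omega
  · have : 0 ≤ 5 * c * K := by positivity
    linarith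
  intro a b hd hmin hpen
  obtain ⟨w, hR⟩ := phi_spec a0 b0 a b hpen hd
  set s := (phi a0 b0 (a, b)).1 with hs
  set t := (phi a0 b0 (a, b)).2 with ht
  have hdisc := rep_disc hR
  have hden0 : ((w.den : ℤ)) ≠ 0 := by exact_mod_cast w.den_nz
  have hT0 : PT a0 b0 s t ≠ 0 := by
    intro h
    rw [h] at hdisc
    have : (w.den : ℤ) ^ 12 * (4 * a ^ 3 - 27 * b ^ 2) = 0 := by rw [hdisc]; ring
    rcases mul_eq_zero.1 this with h1 | h1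
    · exact hden0 (pow_eq_zero_iff (by norm_num) |>.1 h1)
    · exact hd h1
  refine ⟨hR.2.1, hT0, ?_, ?_, ?_, ?_⟩
  · intro p hp hpm hpT
    have hpi : Prime (p : ℤ) := Nat.prime_iff_prime_int.1 hp
    constructor
    · by_contra hlt
      push Not at hlt
      have h2 := hp.two_le
      apply hpm
      have h23 : p = 2 ∨ p = 3 ∨ p = 4 := by omega
      rcases h23 with rfl | rfl | rfl
      · exact Dvd.dvd.mul_right (Dvd.dvd.mul_right (by norm_num) _) _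
      · exact Dvd.dvd.mul_right (Dvd.dvd.mul_right (by norm_num) _) _
      · exact absurd hp (by norm_num)
    · have h1 : (p : ℤ) ∣ (w.den : ℤ) ^ 12 * (4 * a ^ 3 - 27 * b ^ 2) := by
        rw [hdisc]
        exact Dvd.dvd.mul_left (Dvd.dvd.mul_left (dvd_pow hpT (by norm_num)) _) _
      rcases hpi.dvd_or_dvd h1 with h2 | h2
      · exfalso
        have h3 : (p : ℤ) ∣ (w.den : ℤ) := hpi.dvd_of_dvd_pow h2
        have h4 : (p : ℤ) ∣ 243 * D ^ 3 := (dvd_pow h3 (by norm_num)).trans (den_dvd hR)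
        apply hpm
        have h5 : p ∣ (243 * D ^ 3).natAbs := Int.natCast_dvd.1 h4
        rw [Int.natAbs_mul, Int.natAbs_pow] at h5
        have e : 6 * 243 * D.natAbs ^ 3 = 6 * (243 * D.natAbs ^ 3) := by ring
        rw [e]
        exact Dvd.dvd.mul_left h5 _
      · exact h2
  · have h1 := hmin w⁻¹ (PA a0 b0 s t) (PB a0 b0 s t) (inv_ne_zero hR.1) (by
      rw [hR.2.2.1, ← mul_assoc, ← mul_pow, inv_mul_cancel₀ hR.1, one_pow, one_mul]) (by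
      rw [hR.2.2.2, ← mul_assoc, ← mul_pow, inv_mul_cancel₀ hR.1, one_pow, one_mul])
    rw [pencil_disc, ← hDdef] at h1
    have h2 : |((4 * a ^ 3 - 27 * b ^ 2 : ℤ) : ℝ)| ≤ |((D * PT a0 b0 s t ^ 3 : ℤ) : ℝ)| := by
      exact_mod_cast h1
    refine h2.trans ?_
    push_cast
    rw [abs_mul, abs_pow]
    have h3 : 0 ≤ 5 * c * K := by positivity
    gcongr
    linarith
  · intro H hH ha hb
    have h1 := height hD hR c hc (hbez s t) H hH ha hb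
    rw [← hDdef, ← hK] at h1
    set C := 1 + |(D : ℝ)| + 5 * c * K with hC
    have h3 : 0 ≤ 5 * c * K := by positivity
    have hC1 : 1 ≤ C := by linarith
    have h2 : max |(s : ℝ)| |(t : ℝ)| ^ 4 ≤ (C * H) ^ 4 := by
      refine h1.trans ?_
      rw [mul_pow]
      have h4 : 5 * c * K ≤ C ^ 4 := by
        calc 5 * c * K ≤ C := by linarith
          _ = C ^ 1 := (pow_one C).symm
          _ ≤ C ^ 4 := pow_le_pow_right₀ hC1 (by norm_num)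
      gcongr
    exact le_of_pow_le_pow_left₀ (by norm_num) (by positivity) h2
  · intro a' b' hd' hmin' hpen' he
    obtain ⟨w', hR'⟩ := phi_spec a0 b0 a' b' hpen' hd'
    rw [← he, ← hs, ← ht] at hR'
    set x : ℚ := w' / w with hx
    have hw := hR.1
    have hw' := hR'.1
    have hx0 : x ≠ 0 := div_ne_zero hw' hw
    have e1 : (a' : ℚ) = x ^ 4 * a := by
      rw [hR'.2.2.1, hR.2.2.1, hx]
      field_simp
    have e2 : (b' : ℚ) = x ^ 6 * b := by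
      rw [hR'.2.2.2, hR.2.2.2, hx]
      field_simp
    have e3 : (a : ℚ) = (x⁻¹) ^ 4 * a' := by
      rw [e1, ← mul_assoc, ← mul_pow, inv_mul_cancel₀ hx0, one_pow, one_mul]
    have e4 : (b : ℚ) = (x⁻¹) ^ 6 * b' := by
      rw [e2, ← mul_assoc, ← mul_pow, inv_mul_cancel₀ hx0, one_pow, one_mul]
    have h1 := hmin x a' b' hx0 e1 e2
    have h2 := hmin' x⁻¹ a b (inv_ne_zero hx0) e3 e4
    have h3 : |4 * a ^ 3 - 27 * b ^ 2| = |4 * a' ^ 3 - 27 * b' ^ 2| := le_antisymm h1 h2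
    have h4 : ((4 * a' ^ 3 - 27 * b' ^ 2 : ℤ) : ℚ) = x ^ 12 * ((4 * a ^ 3 - 27 * b ^ 2 : ℤ) : ℚ) := by
      push_cast
      rw [e1, e2]
      ring
    have h5 : |((4 * a ^ 3 - 27 * b ^ 2 : ℤ) : ℚ)| = |((4 * a' ^ 3 - 27 * b' ^ 2 : ℤ) : ℚ)| := by
      exact_mod_cast h3
    have h6 : x ^ 12 = 1 := by
      rw [h4, abs_mul] at h5
      have h7 : |((4 * a ^ 3 - 27 * b ^ 2 : ℤ) : ℚ)| ≠ 0 := by
        rw [abs_ne_zero]
        exact_mod_cast hd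
      have h8 : |x ^ 12| = 1 := by
        have h9 : 1 * |((4 * a ^ 3 - 27 * b ^ 2 : ℤ) : ℚ)| =
            |x ^ 12| * |((4 * a ^ 3 - 27 * b ^ 2 : ℤ) : ℚ)| := by rw [one_mul]; exact h5
        exact (mul_right_cancel₀ h7 h9).symm
      rwa [abs_of_nonneg (by positivity)] at h8
    have h10 : x ^ 2 = 1 := by
      have : (x ^ 2) ^ 6 = 1 := by rw [← pow_mul]; exact h6
      exact (pow_eq_one_iff_of_nonneg (sq_nonneg x) (by norm_num)).1 this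
    constructor
    · have : (a' : ℚ) = a := by
        rw [e1]
        have : x ^ 4 = 1 := by
          calc x ^ 4 = (x ^ 2) ^ 2 := by ring
            _ = 1 := by rw [h10]; norm_num
        rw [this, one_mul]
      exact_mod_cast this.symm
    · have : (b' : ℚ) = b := by
        rw [e2]
        have : x ^ 6 = 1 := by
          calc x ^ 6 = (x ^ 2) ^ 3 := by ring
            _ = 1 := by rw [h10]; norm_num
        rw [this, one_mul]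
      exact_mod_cast this.symm

end Pool.Agent.W21.QD
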