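import Pool.Agent.W21.QD.PEN
import Pool.Agent.W4.QD.Stms3

/-!
# Minimal models in the pencil, with the bound for the height
-/

set_option autoImplicit false

namespace Pool.Agent.W21.QD

open Pool.Agent.W4.QD

theorem form_le (n : ℕ) (k : ℕ → ℝ) (s t M : ℝ) (hs : |s| ≤ M) (ht : |t| ≤ M) :
    |∑ i ∈ Finset.range (n + 1), k i * s ^ (n - i) * t ^ i| ≤
      (∑ i ∈ Finset.range (n + 1), |k i|) * M ^ n := by
  have hM : 0 ≤ M := (abs_nonneg s).trans hs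
  refine (Finset.abs_sum_le_sum_abs _ _).trans ?_
  rw [Finset.sum_mul]
  refine Finset.sum_le_sum fun i hi => ?_
  rw [Finset.mem_range] at hi
  rw [abs_mul, abs_mul, abs_pow, abs_pow, mul_assoc]
  have e : M ^ n = M ^ (n - i) * M ^ i := by
    rw [← pow_add]
    congr 1
    omega
  rw [e]
  gcongr

/-- the coefficients -/
def kA (a b : ℝ) : ℕ → ℝ
  | 0 => a
  | 1 => 18 * b
  | 2 => 18 * a ^ 2
  | 3 => 54 * a * b
  | _ => 243 * b ^ 2 - 27 * a ^ 3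

/-- the coefficients -/
def kB (a b : ℝ) : ℕ → ℝ
  | 0 => b
  | 1 => 4 * a ^ 2
  | 2 => 45 * a * b
  | 3 => 270 * b ^ 2
  | 4 => 135 * a ^ 2 * b
  | 5 => 108 * a ^ 4 - 486 * a * b ^ 2
  | _ => 243 * a ^ 3 * b - 1458 * b ^ 3

theorem PA_le (a b s t : ℤ) : |((PA a b s t : ℤ) : ℝ)| ≤
    (∑ i ∈ Finset.range 5, |kA a b i|) * max |(s : ℝ)| |(t : ℝ)| ^ 4 := by
  have h := form_le 4 (kA a b) s t _ (le_max_left |(s : ℝ)| |(t : ℝ)|) (le_max_right _ _)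
  refine le_trans (le_of_eq ?_) h
  congr 1
  simp only [Finset.sum_range_succ, Finset.sum_range_zero, kA, PA]
  push_cast
  ring

theorem PB_le (a b s t : ℤ) : |((PB a b s t : ℤ) : ℝ)| ≤
    (∑ i ∈ Finset.range 7, |kB a b i|) * max |(s : ℝ)| |(t : ℝ)| ^ 6 := by
  have h := form_le 6 (kB a b) s t _ (le_max_left |(s : ℝ)| |(t : ℝ)|) (le_max_right _ _)
  refine le_trans (le_of_eq ?_) h
  congr 1
  simp only [Finset.sum_range_succ, Finset.sum_range_zero, kB, PB]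
  push_cast
  ring

/-- the scaling of a minimal model is at most one -/
theorem num_le_den {a0 b0 a b s t : ℤ} {w : ℚ} (hR : Rep a0 b0 a b s t w)
    (hD : 4 * a0 ^ 3 - 27 * b0 ^ 2 ≠ 0) (hT : PT a0 b0 s t ≠ 0)
    (hm : |4 * a ^ 3 - 27 * b ^ 2| ≤ |(4 * a0 ^ 3 - 27 * b0 ^ 2) * PT a0 b0 s t ^ 3|) :
    |w.num| ≤ (w.den : ℤ) := by
  have h1 := rep_disc hR
  set E : ℤ := (4 * a0 ^ 3 - 27 * b0 ^ 2) * PT a0 b0 s t ^ 3 with hE
  have hE0 : 0 < |E| := abs_pos.2 (mul_ne_zero hD (pow_ne_zero 3 hT))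
  have h2 : |w.num| ^ 12 * |E| = (w.den : ℤ) ^ 12 * |4 * a ^ 3 - 27 * b ^ 2| := by
    rw [← abs_pow, ← abs_mul, ← h1, abs_mul, abs_of_nonneg (show (0 : ℤ) ≤ (w.den : ℤ) ^ 12 by
      positivity)]
  have h3 : |w.num| ^ 12 * |E| ≤ (w.den : ℤ) ^ 12 * |E| := by
    rw [h2]
    exact mul_le_mul_of_nonneg_left hm (by positivity)
  have h4 : |w.num| ^ 12 ≤ (w.den : ℤ) ^ 12 := le_of_mul_le_mul_right h3 hE0
  exact le_of_pow_le_pow_left₀ (by norm_num) (by positivity) h4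

theorem a_le {a0 b0 a b s t : ℤ} {w : ℚ} (hR : Rep a0 b0 a b s t w)
    (h : |w.num| ≤ (w.den : ℤ)) : |a| ≤ |PA a0 b0 s t| := by
  have h1 := rep_a hR
  have hd : (0 : ℤ) < (w.den : ℤ) ^ 4 := by
    have : (0 : ℤ) < w.den := by exact_mod_cast w.den_pos
    positivity
  have h2 : (w.den : ℤ) ^ 4 * |a| = |w.num| ^ 4 * |PA a0 b0 s t| := by
    rw [← abs_pow, ← abs_mul, ← h1, abs_mul, abs_of_pos hd]
  have h3 : (w.den : ℤ) ^ 4 * |a| ≤ (w.den : ℤ) ^ 4 * |PA a0 b0 s t| := by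
    rw [h2]
    gcongr
  exact le_of_mul_le_mul_left h3 hd

theorem b_le {a0 b0 a b s t : ℤ} {w : ℚ} (hR : Rep a0 b0 a b s t w)
    (h : |w.num| ≤ (w.den : ℤ)) : |b| ≤ |PB a0 b0 s t| := by
  have h1 := rep_b hR
  have hd : (0 : ℤ) < (w.den : ℤ) ^ 6 := by
    have : (0 : ℤ) < w.den := by exact_mod_cast w.den_pos
    positivity
  have h2 : (w.den : ℤ) ^ 6 * |b| = |w.num| ^ 6 * |PB a0 b0 s t| := by
    rw [← abs_pow, ← abs_mul, ← h1, abs_mul, abs_of_pos hd]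
  have h3 : (w.den : ℤ) ^ 6 * |b| ≤ (w.den : ℤ) ^ 6 * |PB a0 b0 s t| := by
    rw [h2]
    gcongr
  exact le_of_mul_le_mul_left h3 hd

/-- the bound for the height of a minimal model -/
theorem height_le (a0 b0 : ℤ) (hD : 4 * a0 ^ 3 - 27 * b0 ^ 2 ≠ 0) (a b : ℤ)
    (hd : 4 * a ^ 3 - 27 * b ^ 2 ≠ 0) (hmin : MinM a b) (hpen : InPencil a0 b0 a b) :
    max (|(a : ℝ)| ^ 3) ((b : ℝ) ^ 2) ≤
      ((∑ i ∈ Finset.range 5, |kA a0 b0 i|) ^ 3 + (∑ i ∈ Finset.range 7, |kB a0 b0 i|) ^ 2) *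
        (max |((phi a0 b0 (a, b)).1 : ℝ)| |((phi a0 b0 (a, b)).2 : ℝ)|) ^ 12 := by
  obtain ⟨w, hR⟩ := phi_spec a0 b0 a b hpen hd
  set s := (phi a0 b0 (a, b)).1 with hs
  set t := (phi a0 b0 (a, b)).2 with ht
  have hdisc := rep_disc hR
  have hden0 : ((w.den : ℤ)) ≠ 0 := by exact_mod_cast w.den_nz
  have hT0 : PT a0 b0 s t ≠ 0 := by
    intro h
    rw [h] at hdisc
    have : (w.den : ℤ) ^ 12 * (4 * a ^ 3 - 27 * b ^ 2) = 0 := by rw [hdisc]; ring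
    rcases mul_eq_zero.1 this with h1 | h1
    · exact hden0 (pow_eq_zero_iff (by norm_num) |>.1 h1)
    · exact hd h1
  have h1 := hmin w⁻¹ (PA a0 b0 s t) (PB a0 b0 s t) (inv_ne_zero hR.1) (by
    rw [hR.2.2.1, ← mul_assoc, ← mul_pow, inv_mul_cancel₀ hR.1, one_pow, one_mul]) (by
    rw [hR.2.2.2, ← mul_assoc, ← mul_pow, inv_mul_cancel₀ hR.1, one_pow, one_mul])
  rw [pencil_disc] at h1
  have hnd := num_le_den hR hD hT0 h1
  have ha : |(a : ℝ)| ≤ |((PA a0 b0 s t : ℤ) : ℝ)| := by exact_mod_cast a_le hR hnd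
  have hb : |(b : ℝ)| ≤ |((PB a0 b0 s t : ℤ) : ℝ)| := by exact_mod_cast b_le hR hnd
  have hA := PA_le a0 b0 s t
  have hB := PB_le a0 b0 s t
  set M := max |(s : ℝ)| |(t : ℝ)| with hM
  have hM0 : 0 ≤ M := (abs_nonneg _).trans (le_max_left _ _)
  set cA := ∑ i ∈ Finset.range 5, |kA a0 b0 i| with hcA
  set cB := ∑ i ∈ Finset.range 7, |kB a0 b0 i| with hcB
  have hcA0 : 0 ≤ cA := Finset.sum_nonneg fun _ _ => abs_nonneg _
  have hcB0 : 0 ≤ cB := Finset.sum_nonneg fun _ _ => abs_nonneg _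
  have e1 : |(a : ℝ)| ^ 3 ≤ cA ^ 3 * M ^ 12 := by
    calc |(a : ℝ)| ^ 3 ≤ (cA * M ^ 4) ^ 3 := pow_le_pow_left₀ (abs_nonneg _) (ha.trans hA) 3
      _ = _ := by ring
  have e2 : (b : ℝ) ^ 2 ≤ cB ^ 2 * M ^ 12 := by
    rw [← sq_abs]
    calc |(b : ℝ)| ^ 2 ≤ (cB * M ^ 6) ^ 2 := pow_le_pow_left₀ (abs_nonneg _) (hb.trans hB) 2
      _ = _ := by ring
  have e3 : 0 ≤ cA ^ 3 * M ^ 12 := by positivity
  have e4 : 0 ≤ cB ^ 2 * M ^ 12 := by positivity
  rw [add_mul]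
  exact max_le (by linarith) (by linarith)

/-- `t_PEN` with the explicit function `phi` -/
theorem t_PEN2 : S_PEN2 := by
  intro a0 b0 hD
  obtain ⟨c, hc, hbez⟩ := bez_real a0 b0 hD
  set D : ℤ := 4 * a0 ^ 3 - 27 * b0 ^ 2 with hDdef
  have hD1 : (1 : ℝ) ≤ |(D : ℝ)| := by
    have : (1 : ℤ) ≤ |D| := Int.one_le_abs hD
    exact_mod_cast this
  set K : ℝ := 243 * |(D : ℝ)| ^ 3 with hK
  have hK0 : 0 < K := by positivity
  set cc : ℝ := (∑ i ∈ Finset.range 5, |kA a0 b0 i|) ^ 3 +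
    (∑ i ∈ Finset.range 7, |kB a0 b0 i|) ^ 2 with hcc
  have hcc0 : 0 ≤ cc := by
    have h1 : 0 ≤ ∑ i ∈ Finset.range 5, |kA a0 b0 i| := Finset.sum_nonneg fun _ _ => abs_nonneg _
    positivity
  have hcK : 0 ≤ 5 * c * K := by positivity
  refine ⟨6 * 243 * D.natAbs ^ 3, 1 + |(D : ℝ)| + 5 * c * K + cc, phi a0 b0, ?_, ?_, ?_⟩
  · have : 0 < D.natAbs := Int.natAbs_pos.2 hD
    have : 0 < D.natAbs ^ 3 := by positivity
    omega
  · linarith
  intro a b hd hmin hpen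
  have hh := height_le a0 b0 hD a b hd hmin hpen
  obtain ⟨w, hR⟩ := phi_spec a0 b0 a b hpen hd
  set s := (phi a0 b0 (a, b)).1 with hs
  set t := (phi a0 b0 (a, b)).2 with ht
  have hdisc := rep_disc hR
  have hden0 : ((w.den : ℤ)) ≠ 0 := by exact_mod_cast w.den_nz
  have hT0 : PT a0 b0 s t ≠ 0 := by
    intro h
    rw [h] at hdisc
    have : (w.den : ℤ) ^ 12 * (4 * a ^ 3 - 27 * b ^ 2) = 0 := by rw [hdisc]; ring
    rcases mul_eq_zero.1 this with h1 | h1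
    · exact hden0 (pow_eq_zero_iff (by norm_num) |>.1 h1)
    · exact hd h1
  refine ⟨hR.2.1, hT0, ?_, ?_, ?_, ?_, ?_⟩
  · intro p hp hpm hpT
    have hpi : Prime (p : ℤ) := Nat.prime_iff_prime_int.1 hp
    constructor
    · by_contra hlt
      push Not at hlt
      have h2 := hp.two_le
      apply hpm
      have h23 : p = 2 ∨ p = 3 ∨ p = 4 := by omega
      rcases h23 with rfl | rfl | rfl
      · exact Dvd.dvd.mul_right (Dvd.dvd.mul_right (by norm_num) _) _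
      · exact Dvd.dvd.mul_right (Dvd.dvd.mul_right (by norm_num) _) _
      · exact absurd hp (by norm_num)
    · have h1 : (p : ℤ) ∣ (w.den : ℤ) ^ 12 * (4 * a ^ 3 - 27 * b ^ 2) := by
        rw [hdisc]
        exact Dvd.dvd.mul_left (Dvd.dvd.mul_left (dvd_pow hpT (by norm_num)) _) _
      rcases hpi.dvd_or_dvd h1 with h2 | h2
      · exfalso
        have h3 : (p : ℤ) ∣ (w.den : ℤ) := hpi.dvd_of_dvd_pow h2
        have h4 : (p : ℤ) ∣ 243 * D ^ 3 := (dvd_pow h3 (by norm_num)).trans (den_dvd hR)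
        apply hpm
        have h5 : p ∣ (243 * D ^ 3).natAbs := Int.natCast_dvd.1 h4
        rw [Int.natAbs_mul, Int.natAbs_pow] at h5
        have e : 6 * 243 * D.natAbs ^ 3 = 6 * (243 * D.natAbs ^ 3) := by ring
        rw [e]
        exact Dvd.dvd.mul_left h5 _
      · exact h2
  · have h1 := hmin w⁻¹ (PA a0 b0 s t) (PB a0 b0 s t) (inv_ne_zero hR.1) (by
      rw [hR.2.2.1, ← mul_assoc, ← mul_pow, inv_mul_cancel₀ hR.1, one_pow, one_mul]) (by
      rw [hR.2.2.2, ← mul_assoc, ← mul_pow, inv_mul_cancel₀ hR.1, one_pow, one_mul])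
    rw [pencil_disc, ← hDdef] at h1
    have h2 : |((4 * a ^ 3 - 27 * b ^ 2 : ℤ) : ℝ)| ≤ |((D * PT a0 b0 s t ^ 3 : ℤ) : ℝ)| := by
      exact_mod_cast h1
    refine h2.trans ?_
    push_cast
    rw [abs_mul, abs_pow]
    gcongr
    linarith
  · rw [← hcc] at hh
    refine hh.trans (mul_le_mul_of_nonneg_right (by linarith) ?_)
    have : 0 ≤ max |(s : ℝ)| |(t : ℝ)| := (abs_nonneg _).trans (le_max_left _ _)
    positivity
  · intro H hH ha hb
    have h1 := height hD hR c hc (hbez s t) H hH ha hb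
    rw [← hDdef, ← hK] at h1
    set C := 1 + |(D : ℝ)| + 5 * c * K + cc with hC
    have hC1 : 1 ≤ C := by linarith
    have h2 : max |(s : ℝ)| |(t : ℝ)| ^ 4 ≤ (C * H) ^ 4 := by
      refine h1.trans ?_
      rw [mul_pow]
      have h4 : 5 * c * K ≤ C ^ 4 := by
        calc 5 * c * K ≤ C := by linarith
          _ = C ^ 1 := (pow_one C).symm
          _ ≤ C ^ 4 := pow_le_pow_right₀ hC1 (by norm_num)
      gcongr
    exact le_of_pow_le_pow_left₀ (by norm_num) (by positivity) h2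
  · intro a' b' hd' hmin' hpen' he
    obtain ⟨w', hR'⟩ := phi_spec a0 b0 a' b' hpen' hd'
    rw [← he, ← hs, ← ht] at hR'
    set x : ℚ := w' / w with hx
    have hw := hR.1
    have hw' := hR'.1
    have hx0 : x ≠ 0 := div_ne_zero hw' hw
    have e1 : (a' : ℚ) = x ^ 4 * a := by
      rw [hR'.2.2.1, hR.2.2.1, hx]
      field_simp
    have e2 : (b' : ℚ) = x ^ 6 * b := by
      rw [hR'.2.2.2, hR.2.2.2, hx]
      field_simp
    have e3 : (a : ℚ) = (x⁻¹) ^ 4 * a' := by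
      rw [e1, ← mul_assoc, ← mul_pow, inv_mul_cancel₀ hx0, one_pow, one_mul]
    have e4 : (b : ℚ) = (x⁻¹) ^ 6 * b' := by
      rw [e2, ← mul_assoc, ← mul_pow, inv_mul_cancel₀ hx0, one_pow, one_mul]
    have h1 := hmin x a' b' hx0 e1 e2
    have h2 := hmin' x⁻¹ a b (inv_ne_zero hx0) e3 e4
    have h3 : |4 * a ^ 3 - 27 * b ^ 2| = |4 * a' ^ 3 - 27 * b' ^ 2| := le_antisymm h1 h2
    have h4 : ((4 * a' ^ 3 - 27 * b' ^ 2 : ℤ) : ℚ) = x ^ 12 * ((4 * a ^ 3 - 27 * b ^ 2 : ℤ) : ℚ) := by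
      push_cast
      rw [e1, e2]
      ring
    have h5 : |((4 * a ^ 3 - 27 * b ^ 2 : ℤ) : ℚ)| = |((4 * a' ^ 3 - 27 * b' ^ 2 : ℤ) : ℚ)| := by
      exact_mod_cast h3
    have h6 : x ^ 12 = 1 := by
      rw [h4, abs_mul] at h5
      have h7 : |((4 * a ^ 3 - 27 * b ^ 2 : ℤ) : ℚ)| ≠ 0 := by
        rw [abs_ne_zero]
        exact_mod_cast hd
      have h8 : |x ^ 12| = 1 := by
        have h9 : 1 * |((4 * a ^ 3 - 27 * b ^ 2 : ℤ) : ℚ)| =
            |x ^ 12| * |((4 * a ^ 3 - 27 * b ^ 2 : ℤ) : ℚ)| := by rw [one_mul]; exact h5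
        exact (mul_right_cancel₀ h7 h9).symm
      rwa [abs_of_nonneg (by positivity)] at h8
    have h10 : x ^ 2 = 1 := by
      have : (x ^ 2) ^ 6 = 1 := by rw [← pow_mul]; exact h6
      exact (pow_eq_one_iff_of_nonneg (sq_nonneg x) (by norm_num)).1 this
    constructor
    · have : (a' : ℚ) = a := by
        rw [e1]
        have : x ^ 4 = 1 := by
          calc x ^ 4 = (x ^ 2) ^ 2 := by ring
            _ = 1 := by rw [h10]; norm_num
        rw [this, one_mul]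
      exact_mod_cast this.symm
    · have : (b' : ℚ) = b := by
        rw [e2]
        have : x ^ 6 = 1 := by
          calc x ^ 6 = (x ^ 2) ^ 3 := by ring
            _ = 1 := by rw [h10]; norm_num
        rw [this, one_mul]
      exact_mod_cast this.symm

end Pool.Agent.W21.QD
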